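import Pool.Agent.D0H90.SM.Stm3

/-! FINS: finitely many solutions. Apply INT to the ring of all functions on the set of solutions. -/

set_option autoImplicit false

namespace Pool.Agent.D0H18.SM

open MvPolynomial Matrix Pool.Agent.D0H90.SM

universe u

theorem t_FINS (hI : S_INT.{u}) : S_FINS.{u} := by
  intro K _ n d hd c hc G
  set S : Set (Matrix (Fin n) (Fin n) K) :=
    {E | ∀ i : Fin n, ev c (fun l => E l i) = E *ᵥ fun j => G j i} with hS
  let E0 : Matrix (Fin n) (Fin n) (S → K) := Matrix.of fun l i => fun s => s.1 l i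
  have h : ∀ l i, IsIntegral K (E0 l i) := by
    refine hI K (S → K) n d hd c hc G E0 ?_
    intro i
    funext l s
    have h1 : ev c (fun l => s.1 l i) l = (s.1 *ᵥ fun j => G j i) l := congrFun (s.2 i) l
    simp only [ev, mon, Matrix.mulVec, dotProduct] at h1
    simp only [ev, mon, Matrix.mulVec, dotProduct, Finset.sum_apply, Pi.mul_apply, Finset.prod_apply,
      Pi.pow_apply, Pi.algebraMap_apply, Algebra.algebraMap_self, RingHom.id_apply]
    exact h1
  choose p hp1 hp2 using h
  have hfin1 : ∀ l : Fin n, (Set.pi Set.univ fun i : Fin n => {x : K | (p l i).IsRoot x}).Finite :=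
    fun l => Set.Finite.pi fun i => Polynomial.finite_setOfPred_isRoot (hp1 l i).ne_zero
  have hfin : (Set.pi Set.univ fun l : Fin n => Set.pi Set.univ fun i : Fin n =>
      {x : K | (p l i).IsRoot x}).Finite := Set.Finite.pi hfin1
  refine hfin.subset ?_
  intro E hE l _ i _
  have h2 := congrFun (hp2 l i) ⟨E, hE⟩
  change (p l i).eval (E l i) = 0
  have h3 : (Pi.evalRingHom (fun _ : S => K) ⟨E, hE⟩) ((p l i).eval₂ (algebraMap K (S → K)) (E0 l i)) = 0 := h2
  rw [Polynomial.hom_eval₂] at h3
  rw [← h3, Polynomial.eval]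
  rfl

end Pool.Agent.D0H18.SM
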