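import Pool.Agent.D0H90.SM.Stm3

/-! PLACE: extension of a homomorphism to an algebraically closed field to the integral closure of the
local ring. -/

set_option autoImplicit false

namespace Pool.Agent.D0H18.SM

open MvPolynomial Matrix Pool.Agent.D0H90.SM

universe u

/-- A homomorphism with a section from a subring to an algebraically closed field extends to an integrally
closed subring which contains the local ring of the kernel. -/
theorem ext_hom {P F k : Type u} [CommRing P] [Field F] [Field k] [IsAlgClosed k] (ι : P →+* F)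
    (hι : Function.Injective ι) (φ : P →+* k) (j : k →+* P) (hj : ∀ t, φ (j t) = t) :
    ∃ (B : Subring F) (h : B →+* k) (mem : ∀ p, ι p ∈ B), (∀ p, h ⟨_, mem p⟩ = φ p) ∧
      (∀ p, φ p ≠ 0 → (ι p)⁻¹ ∈ B) ∧ ∀ x : F, IsIntegral B x → x ∈ B := by
  classical
  have hp : (RingHom.ker φ).IsPrime := RingHom.ker_isPrime φ
  let A := Localization.AtPrime (RingHom.ker φ)
  have hu1 : ∀ y : (RingHom.ker φ).primeCompl, IsUnit (ι y) := by
    intro y
    refine IsUnit.mk0 _ fun h0 => y.2 ?_
    have : (y : P) = 0 := hι (by rw [h0, map_zero])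
    rw [this]
    exact Ideal.zero_mem _
  have hu2 : ∀ y : (RingHom.ker φ).primeCompl, IsUnit (φ y) := by
    intro y
    exact IsUnit.mk0 _ fun h0 => y.2 ((RingHom.mem_ker).2 h0)
  let ιA : A →+* F := IsLocalization.lift (M := (RingHom.ker φ).primeCompl) hu1
  let φA : A →+* k := IsLocalization.lift (M := (RingHom.ker φ).primeCompl) hu2
  have hιA : ∀ p, ιA (algebraMap P A p) = ι p := fun p => IsLocalization.lift_eq _ _
  have hφA : ∀ p, φA (algebraMap P A p) = φ p := fun p => IsLocalization.lift_eq _ _
  let _ : Algebra A F := ιA.toAlgebra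
  have halg : ∀ a : A, algebraMap A F a = ιA a := fun _ => rfl
  let B := integralClosure A F
  have : Algebra.IsIntegral A B := inferInstance
  obtain ⟨Q, hQ, hQc⟩ := Ideal.exists_ideal_over_maximal_of_isIntegral (S := B) (IsLocalRing.maximalIdeal A)
    (IsLocalRing.le_maximalIdeal (RingHom.ker_ne_top _))
  have hker : ∀ a : A, φA a = 0 → algebraMap A B a ∈ Q := by
    intro a ha
    have h1 : a ∈ IsLocalRing.maximalIdeal A := by
      rw [IsLocalRing.mem_maximalIdeal]
      intro hu
      have := hu.map φA
      rw [ha] at this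
      exact not_isUnit_zero this
    rw [← hQc] at h1
    exact h1
  let f : k →+* B ⧸ Q := (Ideal.Quotient.mk Q).comp ((algebraMap A B).comp ((algebraMap P A).comp j))
  have hf : ∀ a : A, Ideal.Quotient.mk Q (algebraMap A B a) = f (φA a) := by
    intro a
    rw [← sub_eq_zero]
    change Ideal.Quotient.mk Q (algebraMap A B a) -
      Ideal.Quotient.mk Q (algebraMap A B (algebraMap P A (j (φA a)))) = 0
    rw [← map_sub, ← map_sub, Ideal.Quotient.eq_zero_iff_mem]
    refine hker _ ?_
    rw [map_sub, hφA, hj, sub_self]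
  have hint : f.IsIntegral := by
    intro b
    obtain ⟨b, rfl⟩ := Ideal.Quotient.mk_surjective b
    obtain ⟨p, hp1, hp2⟩ := Algebra.IsIntegral.isIntegral (R := A) b
    refine ⟨p.map φA, hp1.map _, ?_⟩
    rw [Polynomial.eval₂_map]
    have h1 : f.comp φA = (Ideal.Quotient.mk Q).comp (algebraMap A B) := by
      ext1 a
      exact (hf a).symm
    rw [h1, ← Polynomial.hom_eval₂, hp2, map_zero]
  have : Q.IsPrime := hQ.isPrime
  have hsurj : Function.Surjective f := (IsAlgClosed.ringHom_bijective_of_isIntegral f hint).2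
  let e : k ≃+* B ⧸ Q := RingEquiv.ofBijective f ⟨f.injective, hsurj⟩
  have he : ∀ t, e t = f t := fun _ => rfl
  refine ⟨B.toSubring, (e.symm : B ⧸ Q →+* k).comp (Ideal.Quotient.mk Q), ?_, ?_, ?_, ?_⟩
  · intro p
    have : algebraMap A F (algebraMap P A p) = ι p := hιA p
    rw [← this]
    exact B.algebraMap_mem _
  · intro p
    have h1 : (⟨ι p, (by
        have : algebraMap A F (algebraMap P A p) = ι p := hιA p
        rw [← this]
        exact B.algebraMap_mem _)⟩ : B) = algebraMap A B (algebraMap P A p) := by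
      apply Subtype.ext
      exact (hιA p).symm
    change e.symm (Ideal.Quotient.mk Q _) = φ p
    rw [RingEquiv.symm_apply_eq, he, ← hφA, ← hf]
    exact congrArg _ h1
  · intro p hp0
    have hu : p ∈ (RingHom.ker φ).primeCompl := fun h => hp0 ((RingHom.mem_ker).1 h)
    have h1 : IsUnit (algebraMap P A p) := IsLocalization.map_units A ⟨p, hu⟩
    obtain ⟨v, hv⟩ := h1.exists_right_inv
    have h2 : (ι p)⁻¹ = algebraMap A F v := by
      have h3 : ι p * algebraMap A F v = 1 := by
        rw [← hιA p, halg, ← map_mul, hv, map_one]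
      exact (eq_inv_of_mul_eq_one_right h3).symm
    rw [h2]
    exact B.algebraMap_mem _
  · intro x hx
    have h1 : IsIntegral B x := hx
    exact isIntegral_trans (R := A) (A := B) x h1

theorem t_PLACE : S_PLACE.{u} := by
  intro k _ _ n d w
  obtain ⟨B, h, mem, h1, h2, h3⟩ := ext_hom (P := PP n d k) (F := OM n d k) (k := k)
    ((algebraMap (LL n d k) (OM n d k)).comp (algebraMap (PP n d k) (LL n d k)))
    ((algebraMap (LL n d k) (OM n d k)).injective.comp (IsFractionRing.injective (PP n d k) (LL n d k)))
    (evalOne w) C (fun t => by unfold evalOne; simp)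
  exact ⟨{ ring := B, hom := h, mem := mem, eq := h1, inv := h2, closed := h3 }⟩

end Pool.Agent.D0H18.SM
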