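import Pool.Agent.D0H90.SM.Stm5

/-! RES: restriction to the slice is injective on the local ring. -/

set_option autoImplicit false

namespace Pool.Agent.D0H18.SM

open MvPolynomial Matrix Pool.Agent.D0H90.SM

universe u

section
variable {k : Type u} [Field k] {n d : ℕ}

theorem det_genE' (n d : ℕ) (k : Type u) [Field k] : (genE n d k).det ≠ 0 := by
  have h1 : (genE n d k).det = algebraMap (PP n d k) (LL n d k)
      (Matrix.of fun i j => (X (Sum.inl (i, j)) : PP n d k)).det := by
    rw [RingHom.map_det]; rfl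
  rw [h1]
  intro h0
  have h2 : (Matrix.of fun i j => (X (Sum.inl (i, j)) : PP n d k)).det = 0 :=
    (IsFractionRing.injective (PP n d k) (LL n d k)) (h0.trans (map_zero _).symm)
  have h3 := congrArg (evalOne (n := n) (d := d) (fun _ => (0 : k))) h2
  rw [map_zero, RingHom.map_det] at h3
  have h4 : (evalOne (n := n) (d := d) (fun _ => (0 : k))).mapMatrix
      (Matrix.of fun i j => (X (Sum.inl (i, j)) : PP n d k)) = 1 := by
    ext i j
    rw [RingHom.mapMatrix_apply, Matrix.map_apply, Matrix.of_apply, evalOne, eval_X,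
      Sum.elim_inl, Matrix.one_apply]
  rw [h4, Matrix.det_one] at h3
  exact one_ne_zero h3

/-- evaluation at the generic point of the slice -/
theorem aeval_geny (c : Cf n d → k) (P : Pol n d k) :
    aeval (geny c) P = algebraMap (PP n d k) (LL n d k) (rename Sum.inr (res c P)) := by
  have h : (aeval (geny c) : Pol n d k →ₐ[k] LL n d k) =
      ((IsScalarTower.toAlgHom k (PP n d k) (LL n d k)).comp (rename Sum.inr)).comp (res c) := by
    apply MvPolynomial.algHom_ext
    intro a
    rw [aeval_X, AlgHom.comp_apply, AlgHom.comp_apply, res, aeval_X, IsScalarTower.toAlgHom_apply]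
    unfold geny
    congr 1
    rw [glue, glue]
    split
    · rw [rename_C]
    · rw [rename_X]
  rw [h]
  rfl

theorem eval_rest_res (c : Cf n d → k) (Q : Pol n d k) : eval (rest c) (res c Q) = eval c Q := by
  rw [eval_res, glue_rest]

theorem res_ne (c : Cf n d → k) (Q : Pol n d k) (h : eval c Q ≠ 0) : res c Q ≠ 0 := by
  intro h0
  rw [← eval_rest_res, h0, map_zero] at h
  exact h rfl

/-- the restriction of an invariant pair determines it -/
theorem eq_zero_of_res (hI : S_INVK.{u}) (hT : S_THETA.{u}) [CharZero k] (hd : 2 ≤ d)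
    (c : Cf n d → k) (hc : Transv c) (P Q : Pol n d k) (hPQ : Invt P Q) (hQ : res c Q ≠ 0)
    (hP : res c P = 0) : P = 0 := by
  have hs : Semi 0 P Q := by
    intro A A' hA v
    rw [pow_zero, one_mul]
    exact hPQ A A' hA v
  have hinv : (genE n d k)⁻¹ * genE n d k = 1 :=
    Matrix.nonsing_inv_mul _ (isUnit_iff_ne_zero.2 (det_genE' n d k))
  have h := hI k n d 0 P Q hs (LL n d k) (genE n d k)⁻¹ (genE n d k) hinv (geny c)
  rw [pow_zero, one_mul, aeval_geny c P, hP, map_zero, map_zero, zero_mul, aeval_geny c Q] at h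
  have h2 : algebraMap (PP n d k) (LL n d k) (rename Sum.inr (res c Q)) ≠ 0 := by
    rw [Ne, ← map_zero (algebraMap (PP n d k) (LL n d k)),
      (IsFractionRing.injective (PP n d k) (LL n d k)).eq_iff, ← map_zero (rename Sum.inr),
      (rename_injective _ Sum.inr_injective).eq_iff]
    exact hQ
  have h3 : aeval (conj (genE n d k)⁻¹ (genE n d k) (geny c)) P = 0 := by
    rcases mul_eq_zero.1 h.symm with h3 | h3
    · exact h3
    · exact absurd h3 h2
  have h4 : theta c P = theta c 0 := by
    rw [map_zero]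
    exact h3
  exact hT k n d hd c hc h4

end

theorem t_RES (hI : S_INVK.{u}) (hT : S_THETA.{u}) : S_RES.{u} := by
  classical
  intro k _ _ _ n d hd c hc
  let ι := algebraMap (MvPolynomial (Rest n d) k) (FractionRing (MvPolynomial (Rest n d) k))
  let κ := algebraMap (Pol n d k) (Rat n d k)
  have hι : Function.Injective ι := IsFractionRing.injective _ _
  have hκ : Function.Injective κ := IsFractionRing.injective _ _
  have hex : ∀ F : locRing c, ∃ x : FractionRing (MvPolynomial (Rest n d) k),
      ∀ P Q : Pol n d k, eval c Q ≠ 0 → F.1 * κ Q = κ P → x * ι (res c Q) = ι (res c P) := by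
    intro F
    obtain ⟨P, Q, -, h2, h3⟩ := F.2
    have hne : ι (res c Q) ≠ 0 := by
      rw [Ne, ← map_zero ι, hι.eq_iff]
      exact res_ne c Q h2
    refine ⟨ι (res c P) / ι (res c Q), fun P' Q' h2' h3' => ?_⟩
    have h4 : P * Q' = P' * Q := by
      apply hκ
      rw [map_mul, map_mul, ← h3, ← h3']
      ring
    have h5 : ι (res c P) * ι (res c Q') = ι (res c P') * ι (res c Q) := by
      rw [← map_mul, ← map_mul, ← map_mul, ← map_mul, h4]
    rw [div_mul_eq_mul_div, h5, mul_div_assoc, div_self hne, mul_one]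
  choose φ hφ using hex
  have hne : ∀ Q : Pol n d k, eval c Q ≠ 0 → ι (res c Q) ≠ 0 := by
    intro Q h2
    rw [Ne, ← map_zero ι, hι.eq_iff]
    exact res_ne c Q h2
  -- uniqueness
  have hun : ∀ (F : locRing c) (x : FractionRing (MvPolynomial (Rest n d) k)) (P Q : Pol n d k),
      eval c Q ≠ 0 → F.1 * κ Q = κ P → x * ι (res c Q) = ι (res c P) → φ F = x := by
    intro F x P Q h1 h2 h3
    exact mul_right_cancel₀ (hne Q h1) ((hφ F P Q h1 h2).trans h3.symm)
  have hmul : ∀ F G, φ (F * G) = φ F * φ G := by
    intro F G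
    obtain ⟨P, Q, h1, h2, h3⟩ := F.2
    obtain ⟨P', Q', h1', h2', h3'⟩ := G.2
    refine hun (F * G) _ (P * P') (Q * Q') (by rw [map_mul]; exact mul_ne_zero h2 h2') ?_ ?_
    · change F.1 * G.1 * κ (Q * Q') = κ (P * P')
      rw [map_mul, map_mul, ← h3, ← h3']
      ring
    · have e1 := hφ F P Q h2 h3
      have e2 := hφ G P' Q' h2' h3'
      rw [map_mul, map_mul, map_mul, map_mul, ← e1, ← e2]
      ring
  have hadd : ∀ F G, φ (F + G) = φ F + φ G := by
    intro F G
    obtain ⟨P, Q, h1, h2, h3⟩ := F.2
    obtain ⟨P', Q', h1', h2', h3'⟩ := G.2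
    refine hun (F + G) _ (P * Q' + P' * Q) (Q * Q') (by rw [map_mul]; exact mul_ne_zero h2 h2') ?_ ?_
    · change (F.1 + G.1) * κ (Q * Q') = κ (P * Q' + P' * Q)
      rw [map_mul, map_add, map_mul, map_mul, ← h3, ← h3']
      ring
    · have e1 := hφ F P Q h2 h3
      have e2 := hφ G P' Q' h2' h3'
      rw [map_mul, map_mul, map_add, map_mul, map_mul, map_add, map_mul, map_mul, ← e1, ← e2]
      ring
  have halg : ∀ r : k, φ (algebraMap k (locRing c) r) =
      algebraMap k (FractionRing (MvPolynomial (Rest n d) k)) r := by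
    intro r
    refine hun _ _ (C r) 1 (by rw [map_one]; exact one_ne_zero) ?_ ?_
    · change algebraMap k (Rat n d k) r * κ 1 = κ (C r)
      rw [map_one, mul_one, IsScalarTower.algebraMap_apply k (Pol n d k) (Rat n d k)]
      rfl
    · rw [map_one, map_one, mul_one,
        IsScalarTower.algebraMap_apply k (MvPolynomial (Rest n d) k)
          (FractionRing (MvPolynomial (Rest n d) k))]
      have e : res c (C r) = C r := by
        unfold res
        exact aeval_C _ _
      rw [e]
      rfl
  have hone : φ 1 = 1 := by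
    have := halg 1
    rwa [map_one, map_one] at this
  have hzero : φ 0 = 0 := by
    have := halg 0
    rwa [map_zero, map_zero] at this
  let Φ : locRing c →ₐ[k] FractionRing (MvPolynomial (Rest n d) k) :=
    { toFun := φ
      map_one' := hone
      map_mul' := hmul
      map_zero' := hzero
      map_add' := hadd
      commutes' := halg }
  refine ⟨Φ, ?_, ?_⟩
  · rw [injective_iff_map_eq_zero]
    intro F hF
    obtain ⟨P, Q, h1, h2, h3⟩ := F.2
    have e1 := hφ F P Q h2 h3
    have hF' : φ F = 0 := hF
    rw [hF', zero_mul] at e1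
    have e2 : res c P = 0 := hι (e1.symm.trans (map_zero ι).symm)
    have e3 : P = 0 := eq_zero_of_res hI hT hd c hc P Q h1 (res_ne c Q h2) e2
    have e4 : F.1 * κ Q = 0 := by
      rw [h3, e3, map_zero]
    rcases mul_eq_zero.1 e4 with e5 | e5
    · exact Subtype.ext e5
    · exfalso
      have : Q = 0 := hκ (e5.trans (map_zero κ).symm)
      rw [this, map_zero] at h2
      exact h2 rfl
  · intro F P Q _ h2 h3
    exact hφ F P Q h2 h3

end Pool.Agent.D0H18.SM
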